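import Pool.Agent.FPS.All

set_option autoImplicit false

/-!
# MP_32d866_an, Q1: full answer

`C(S¹) *_r B_σ ≅ C(Z) *_r B_σ` for `σ(1, 0) = t` irrational and

(a) `Z = X`, the union of a circle and a segment with exactly one common point (any length of the segment,
any position of the common point in the segment) with normalised one-dimensional Hausdorff measure,

(b) `Z = Y`, any closed annulus in the plane with normalised Lebesgue measure,

(c) `Z = S³`, the three-sphere with normalised surface measure.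

The reduced free products enter through their characterisation: a C*-algebra with a state and with
embeddings of the factors which are free, have the given restrictions of the state, generate the
algebra, and such that the GNS representation of the state is faithful.
-/

open MeasureTheory Pool.Agent.FPZ Pool.Agent.FPS

namespace Pool.Agent.Results.MP_32d866_an.FreeProductsIsomorphic

theorem result (t : ℝ) (ht : Irrational t) (A A' B B' : Type)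
    [CStarAlgebra A] [CStarAlgebra A'] [CStarAlgebra B] [CStarAlgebra B']
    -- `(B, ψ)` and `(B', ψ')` are copies of `B_σ`
    (ψ : B →L[ℂ] ℂ) (κ : ℕ → ℂ × ℂ →⋆ₐ[ℂ] B) (hB : IsB t ψ κ)
    (ψ' : B' →L[ℂ] ℂ) (κ' : ℕ → ℂ × ℂ →⋆ₐ[ℂ] B') (hB' : IsB t ψ' κ')
    -- `(A, φ)` is `C(S¹) *_r B_σ`
    (φ : A →L[ℂ] ℂ) (ι : C(Metric.sphere (0 : ℂ) 1, ℂ) →⋆ₐ[ℂ] A) (j : B →⋆ₐ[ℂ] A)
    (hA : IsZB (nHX (Metric.sphere (0 : ℂ) 1)) ψ φ ι j)
    (φ' : A' →L[ℂ] ℂ) (j' : B' →⋆ₐ[ℂ] A') :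
    -- (a): if `(A', φ')` is `C(X) *_r B_σ` then `A ≅ A'`
    (∀ (X : Type) [MetricSpace X] [CompactSpace X] [MeasurableSpace X] [BorelSpace X] (L : ℝ)
      (c : Metric.sphere (0 : ℂ) 1 → X) (l : Set.Icc (0 : ℝ) L → X), 0 < L → CS X L c l →
      ∀ ι' : C(X, ℂ) →⋆ₐ[ℂ] A', IsZB (nHX X) ψ' φ' ι' j' → Nonempty (A ≃⋆ₐ[ℂ] A')) ∧
    -- (b): if `(A', φ')` is `C(Y) *_r B_σ` then `A ≅ A'`
    (∀ (c : ℂ) (r₁ r₂ : ℝ), 0 < r₁ → r₁ < r₂ →
      ∀ ι' : C(YC c r₁ r₂, ℂ) →⋆ₐ[ℂ] A', IsZB (nL (YC c r₁ r₂)) ψ' φ' ι' j' →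
        Nonempty (A ≃⋆ₐ[ℂ] A')) ∧
    -- (c): if `(A', φ')` is `C(S³) *_r B_σ` then `A ≅ A'`
    (∀ ι' : C(Metric.sphere (0 : EuclideanSpace ℝ (Fin 4)) 1, ℂ) →⋆ₐ[ℂ] A',
      IsZB nS ψ' φ' ι' j' → Nonempty (A ≃⋆ₐ[ℂ] A')) := by
  refine ⟨(Pool.Agent.FPZ.q_FI2 t ht A A' B B' ψ κ φ ι j ψ' κ' φ' j' hB hA hB').1,
    (Pool.Agent.FPZ.q_FI2 t ht A A' B B' ψ κ φ ι j ψ' κ' φ' j' hB hA hB').2, fun ι' h => ?_⟩
  exact q_FI3 t ht A A' B B' ψ κ φ ι j ψ' κ' φ' ι' j' hB hA hB' h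

end Pool.Agent.Results.MP_32d866_an.FreeProductsIsomorphic
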